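import Pool.Agent.H61.KU.TB

/-!
# Kuiper board, module NUL: geometry of the null-homotopy
-/

open Topology Set
open Pool.Agent.H59 Pool.Agent.H64.LB Pool.Agent.H61.KU
open scoped unitInterval

namespace Pool.Agent.H47.KU

theorem pf_nul (hG : T_GAU) : T_NUL := by
  intro K hKc hKv hK2 h0 h1
  have hK'c : IsCompact {x : Fin 3 → ℝ | (x, (0 : ℝ)) ∈ K} := by
    have e : {x : Fin 3 → ℝ | (x, (0 : ℝ)) ∈ K} = Prod.fst '' (K ∩ {p | p.2 = 0}) := by
      ext x
      constructor
      · intro hx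
        exact ⟨(x, 0), ⟨hx, rfl⟩, rfl⟩
      · rintro ⟨⟨a, b⟩, ⟨hK, hb⟩, rfl⟩
        have hb' : b = 0 := hb
        subst hb'
        exact hK
    rw [e]
    apply IsCompact.image _ continuous_fst
    exact hKc.inter_right (isClosed_eq continuous_snd continuous_const)
  have hK'v : Convex ℝ {x : Fin 3 → ℝ | (x, (0 : ℝ)) ∈ K} := by
    intro a ha b hb s t hs ht hst
    have h2 := hKv (show (a, (0 : ℝ)) ∈ K from ha) (show (b, (0 : ℝ)) ∈ K from hb) hs ht hst
    have h3 : s • ((a, 0) : (Fin 3 → ℝ) × ℝ) + t • ((b, 0) : (Fin 3 → ℝ) × ℝ)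
        = (s • a + t • b, 0) := by
      apply Prod.ext
      · rfl
      · show s • (0 : ℝ) + t • (0 : ℝ) = 0
        rw [smul_zero, smul_zero, add_zero]
    rw [h3] at h2
    exact h2
  obtain ⟨g0, gc, gf, g1, gle, gi⟩ := hG (Fin 3 → ℝ) _ hK'c hK'v h0
  generalize hKK : {x : Fin 3 → ℝ | (x, (0 : ℝ)) ∈ K} = K' at *
  have hmem : ∀ x, x ∈ K' ↔ (x, (0 : ℝ)) ∈ K := by
    intro x
    rw [← hKK]
    exact Iff.rfl
  -- the point in the interior
  have ho : ((0 : Fin 3 → ℝ), (1 / 2 : ℝ)) ∈ interior K := by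
    apply hKv.openSegment_interior_self_subset_interior h1 ((hmem 0).1 (interior_subset h0))
    refine ⟨1 / 2, 1 / 2, by norm_num, by norm_num, by norm_num, ?_⟩
    apply Prod.ext
    · show (1 / 2 : ℝ) • (0 : Fin 3 → ℝ) + (1 / 2 : ℝ) • (0 : Fin 3 → ℝ) = 0
      rw [smul_zero, add_zero]
    · show (1 / 2 : ℝ) • (1 : ℝ) + (1 / 2 : ℝ) • (0 : ℝ) = 1 / 2
      rw [smul_zero, add_zero, smul_eq_mul, mul_one]
  obtain ⟨o, hoe⟩ : ∃ o : (Fin 3 → ℝ) × ℝ, o = ((0 : Fin 3 → ℝ), (1 / 2 : ℝ)) := ⟨_, rfl⟩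
  have hK1c : IsCompact ((Homeomorph.addLeft o) ⁻¹' K) :=
    (Homeomorph.addLeft o).isCompact_preimage.2 hKc
  have hK1v : Convex ℝ ((Homeomorph.addLeft o) ⁻¹' K) := by
    intro a ha b hb s t hs ht hst
    have ha' : o + a ∈ K := ha
    have hb' : o + b ∈ K := hb
    have h2 := hKv ha' hb' hs ht hst
    have h3 : s • (o + a) + t • (o + b) = o + (s • a + t • b) := by
      have h4 : s • o + t • o = o := by rw [← add_smul, hst, one_smul]
      calc s • (o + a) + t • (o + b) = (s • o + t • o) + (s • a + t • b) := by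
            rw [smul_add, smul_add]; abel
        _ = o + (s • a + t • b) := by rw [h4]
    rw [h3] at h2
    exact h2
  have hK1i : interior ((Homeomorph.addLeft o) ⁻¹' K) = (Homeomorph.addLeft o) ⁻¹' interior K :=
    ((Homeomorph.addLeft o).preimage_interior K).symm
  have hK1f : frontier ((Homeomorph.addLeft o) ⁻¹' K) = (Homeomorph.addLeft o) ⁻¹' frontier K :=
    ((Homeomorph.addLeft o).preimage_frontier K).symm
  have hK10 : (0 : (Fin 3 → ℝ) × ℝ) ∈ interior ((Homeomorph.addLeft o) ⁻¹' K) := by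
    rw [hK1i]
    show o + 0 ∈ interior K
    rw [add_zero, hoe]
    exact ho
  obtain ⟨k0, kc, kf, k1, kle, ki⟩ := hG ((Fin 3 → ℝ) × ℝ) _ hK1c hK1v hK10
  generalize hKK1 : (Homeomorph.addLeft o) ⁻¹' K = K1 at *
  have hmem1 : ∀ x, x ∈ K1 ↔ o + x ∈ K := by
    intro x
    rw [← hKK1]
    exact Iff.rfl
  have hint1 : ∀ x, x ∈ interior K1 ↔ o + x ∈ interior K := by
    intro x
    rw [hK1i]
    exact Iff.rfl
  have hfr1 : ∀ x, x ∈ frontier K1 ↔ o + x ∈ frontier K := by
    intro x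
    rw [hK1f]
    exact Iff.rfl
  -- radial points of K'
  have hgr : ∀ u : Fin 3 → ℝ, u ≠ 0 → gauge K' (rad K' u) = 1 := fun u hu => (g1 _).1 (gf u hu)
  have hrK : ∀ u : Fin 3 → ℝ, u ≠ 0 → rad K' u ∈ K' := fun u hu =>
    (gle _).2 (le_of_eq (hgr u hu))
  have hr0 : ∀ u : Fin 3 → ℝ, u ≠ 0 → rad K' u ≠ 0 := by
    intro u hu h
    have h2 := hgr u hu
    rw [h, gauge_zero] at h2
    exact zero_ne_one h2
  -- the map z
  let z : I × Sph 2 → (Fin 3 → ℝ) × ℝ := fun p => ((1 - (p.1 : ℝ)) • rad K' p.2.1, (p.1 : ℝ))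
  have hzc : Continuous z := by
    apply Continuous.prodMk
    · apply Continuous.fun_smul
      · exact continuous_const.sub (continuous_subtype_val.comp continuous_fst)
      · unfold rad
        apply Continuous.fun_smul
        · apply Continuous.inv₀
          · exact gc.comp (continuous_subtype_val.comp continuous_snd)
          · intro p
            exact ne_of_gt (g0 _ p.2.2)
        · exact continuous_subtype_val.comp continuous_snd
    · exact continuous_subtype_val.comp continuous_fst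
  have hzK : ∀ p, z p ∈ K := by
    rintro ⟨t, u⟩
    have h2 : (rad K' u.1, (0 : ℝ)) ∈ K := (hmem _).1 (hrK u.1 u.2)
    have h3 := hKv h2 (interior_subset h1) (sub_nonneg.2 t.2.2) t.2.1 (by ring)
    have h4 : z (t, u) = (1 - (t : ℝ)) • ((rad K' u.1, 0) : (Fin 3 → ℝ) × ℝ)
        + (t : ℝ) • ((0, 1) : (Fin 3 → ℝ) × ℝ) := by
      apply Prod.ext
      · show (1 - (t : ℝ)) • rad K' u.1 = (1 - (t : ℝ)) • rad K' u.1 + (t : ℝ) • (0 : Fin 3 → ℝ)
        rw [smul_zero, add_zero]
      · show (t : ℝ) = (1 - (t : ℝ)) • (0 : ℝ) + (t : ℝ) • (1 : ℝ)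
        rw [smul_zero, zero_add, smul_eq_mul, mul_one]
    rw [h4]
    exact h3
  have hzo : ∀ p, z p - o ≠ 0 := by
    rintro ⟨t, u⟩ h
    have h2 : z (t, u) = o := sub_eq_zero.1 h
    rw [hoe] at h2
    have h3 : (t : ℝ) = 1 / 2 := congrArg Prod.snd h2
    have h4 : (1 - (t : ℝ)) • rad K' u.1 = 0 := congrArg Prod.fst h2
    rcases smul_eq_zero.1 h4 with h5 | h5
    · rw [h3] at h5
      norm_num at h5
    · exact hr0 u.1 u.2 h5
  have hHc : Continuous (fun p => o + rad K1 (z p - o)) := by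
    apply continuous_const.add
    unfold rad
    apply Continuous.fun_smul
    · apply Continuous.inv₀
      · exact kc.comp (hzc.sub continuous_const)
      · intro p
        exact ne_of_gt (k0 _ (hzo p))
    · exact hzc.sub continuous_const
  refine ⟨⟨fun p => o + rad K1 (z p - o), hHc⟩, ?_, ?_, ?_⟩
  · intro u
    show o + rad K1 (z (0, u) - o) = (rad K' u.1, 0)
    have hz0 : z (0, u) = (rad K' u.1, 0) := by
      apply Prod.ext
      · show (1 - (((0 : I)) : ℝ)) • rad K' u.1 = rad K' u.1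
        rw [Set.Icc.coe_zero, sub_zero, one_smul]
      · show (((0 : I)) : ℝ) = 0
        exact Set.Icc.coe_zero
    have hni : z (0, u) ∉ interior K := by
      intro hi
      rw [hz0] at hi
      have hcont : Continuous (fun s : ℝ => ((rad K' u.1, s) : (Fin 3 → ℝ) × ℝ)) :=
        continuous_const.prodMk continuous_id
      have hop : IsOpen ((fun s : ℝ => ((rad K' u.1, s) : (Fin 3 → ℝ) × ℝ)) ⁻¹' interior K) :=
        isOpen_interior.preimage hcont
      obtain ⟨ε, hε, hb⟩ := Metric.isOpen_iff.1 hop 0 hi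
      have h2 : (-(ε / 2) : ℝ) ∈ Metric.ball (0 : ℝ) ε := by
        rw [Metric.mem_ball, Real.dist_eq, sub_zero, abs_neg, abs_of_pos (by linarith)]
        linarith
      have h3 := hb h2
      have h4 : ((rad K' u.1, -(ε / 2)) : (Fin 3 → ℝ) × ℝ) ∈ K := interior_subset h3
      have h5 : (0 : ℝ) ≤ -(ε / 2) := hK2 _ h4
      linarith
    have hg : gauge K1 (z (0, u) - o) = 1 := by
      apply le_antisymm
      · apply (kle _).1
        rw [hmem1, add_sub_cancel]
        exact hzK _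
      · by_contra hlt
        apply hni
        have h2 := (ki _).2 (not_le.1 hlt)
        rw [hint1, add_sub_cancel] at h2
        exact h2
    unfold rad at hz0 ⊢
    rw [hg, inv_one, one_smul, add_sub_cancel]
    exact hz0
  · refine ⟨o + rad K1 ((0, 1) - o), ?_⟩
    intro u
    show o + rad K1 (z (1, u) - o) = o + rad K1 ((0, 1) - o)
    have hz1 : z (1, u) = (0, 1) := by
      apply Prod.ext
      · show (1 - (((1 : I)) : ℝ)) • rad K' u.1 = 0
        rw [Set.Icc.coe_one, sub_self, zero_smul]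
      · show (((1 : I)) : ℝ) = 1
        exact Set.Icc.coe_one
    rw [hz1]
  · intro t u
    refine ⟨(hfr1 _).1 (kf _ (hzo (t, u))), ?_⟩
    intro y hy hH
    have hH' : o + (gauge K1 (z (t, u) - o))⁻¹ • (z (t, u) - o) = (y, 0) := hH
    have hpos := k0 _ (hzo (t, u))
    have hle : gauge K1 (z (t, u) - o) ≤ 1 := by
      apply (kle _).1
      rw [hmem1, add_sub_cancel]
      exact hzK _
    have hL : 1 ≤ (gauge K1 (z (t, u) - o))⁻¹ := (one_le_inv₀ hpos).2 hle
    generalize (gauge K1 (z (t, u) - o))⁻¹ = L at hH' hL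
    rw [hoe] at hH'
    have hfst : (0 : Fin 3 → ℝ) + L • ((1 - (t : ℝ)) • rad K' u.1 - 0) = y := congrArg Prod.fst hH'
    have hsnd : (1 / 2 : ℝ) + L * ((t : ℝ) - 1 / 2) = 0 := congrArg Prod.snd hH'
    rw [zero_add, sub_zero, smul_smul] at hfst
    have ht1 : (t : ℝ) ≤ 1 := t.2.2
    have hnn : 0 ≤ L * (1 - (t : ℝ)) := mul_nonneg (by linarith) (by linarith)
    have hgy : gauge K' y = L * (1 - (t : ℝ)) := by
      rw [← hfst, gauge_smul_of_nonneg hnn, hgr u.1 u.2, smul_eq_mul, mul_one]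
    have h2 := (gi y).1 hy
    rw [hgy] at h2
    nlinarith

end Pool.Agent.H47.KU
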