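import Pool.Agent.H61.KU.TB

/-!
# Kuiper board, module SUP: supporting hyperplanes
-/

open Topology Set
open Pool.Agent.H61.KU

namespace Pool.Agent.H47.KU

/-- a zero of a linear functional which is nonnegative on the vertices of a face lies in the hull
of the vertices where it vanishes -/
theorem mem_cv_of_zero {ι : Type} [DecidableEq ι] (v : ι → E8) (F G : Finset ι)
    (l : E8 × ℝ →ₗ[ℝ] ℝ) (hnn : ∀ i ∈ F, 0 ≤ l (hom v i))
    (hG : ∀ i, i ∈ F → l (hom v i) = 0 → i ∈ G) (p : E8) (hp : p ∈ cv v F)
    (h0 : l (p, 1) = 0) : p ∈ cv v G := by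
  classical
  have hFi : (v '' (F : Set ι)) = ((F.image v : Finset E8) : Set E8) := by
    rw [Finset.coe_image]
  have hGi : (v '' (G : Set ι)) = ((G.image v : Finset E8) : Set E8) := by
    rw [Finset.coe_image]
  unfold cv at hp ⊢
  rw [hFi, Finset.mem_convexHull'] at hp
  obtain ⟨w, hw0, hw1, hwp⟩ := hp
  have hlp : l (p, 1) = ∑ q ∈ F.image v, w q * l (q, 1) := by
    have h1 : ((p, 1) : E8 × ℝ) = ∑ q ∈ F.image v, w q • ((q, 1) : E8 × ℝ) := by
      apply Prod.ext
      · rw [Prod.fst_sum]
        simp only [Prod.smul_fst]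
        exact hwp.symm
      · rw [Prod.snd_sum]
        simp only [Prod.smul_snd, smul_eq_mul, mul_one]
        exact hw1.symm
    rw [h1, map_sum]
    apply Finset.sum_congr rfl
    intro q _
    rw [map_smul, smul_eq_mul]
  have hterm : ∀ q ∈ F.image v, 0 ≤ w q * l (q, 1) := by
    intro q hq
    apply mul_nonneg (hw0 q hq)
    obtain ⟨i, hi, hiq⟩ := Finset.mem_image.1 hq
    have := hnn i hi
    unfold hom at this
    rw [hiq] at this
    exact this
  rw [hlp] at h0
  have hz := (Finset.sum_eq_zero_iff_of_nonneg hterm).1 h0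
  have hzero : ∀ q ∈ F.image v, q ∉ G.image v → w q = 0 := by
    intro q hq hqG
    by_contra hne
    apply hqG
    have h2 := hz q hq
    have h3 : l (q, 1) = 0 := by
      rcases mul_eq_zero.1 h2 with h | h
      · exact absurd h hne
      · exact h
    obtain ⟨i, hi, hiq⟩ := Finset.mem_image.1 hq
    refine Finset.mem_image.2 ⟨i, hG i hi ?_, hiq⟩
    unfold hom
    rw [hiq]
    exact h3
  rw [hGi, Finset.mem_convexHull']
  have e1 : ∑ q ∈ G.image v, (if q ∈ F.image v then w q else 0) = 1 := by
    rw [← Finset.sum_filter, ← hw1]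
    symm
    have h4 : (G.image v).filter (fun q => q ∈ F.image v)
        = (F.image v).filter (fun q => q ∈ G.image v) := by
      ext q
      simp only [Finset.mem_filter]
      tauto
    rw [h4]
    rw [Finset.sum_filter_of_ne]
    intro q hq hne
    by_contra hqG
    exact hne (hzero q hq hqG)
  refine ⟨fun q => if q ∈ F.image v then w q else 0, ?_, e1, ?_⟩
  · intro q _
    dsimp only
    split_ifs with h
    · exact hw0 q h
    · exact le_refl _
  · have h5 : ∀ q ∈ G.image v, (if q ∈ F.image v then w q else 0) • q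
        = if q ∈ F.image v then w q • q else 0 := by
      intro q _
      split_ifs with h
      · rfl
      · exact zero_smul _ _
    rw [Finset.sum_congr rfl h5, ← Finset.sum_filter, ← hwp]
    have h4 : (G.image v).filter (fun q => q ∈ F.image v)
        = (F.image v).filter (fun q => q ∈ G.image v) := by
      ext q
      simp only [Finset.mem_filter]
      tauto
    rw [h4]
    rw [Finset.sum_filter_of_ne]
    intro q hq hne
    by_contra hqG
    apply hne
    rw [hzero q hq hqG, zero_smul]

theorem pf_sup (hF : T_FAC) : T_SUP := by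
  intro ι V _ _ _ _ _ v F j hface hinj hsub hne y hy hyn
  classical
  have hKc : Convex ℝ (j ⁻¹' cv v F) := (convex_convexHull ℝ _).affine_preimage j
  obtain ⟨m, hm⟩ := geometric_hahn_banach_open_point hKc.interior isOpen_interior hyn
  have hmK : ∀ x, j x ∈ cv v F → m x ≤ m y := by
    intro x hx
    have hx' : x ∈ closure (interior (j ⁻¹' cv v F)) := by
      rw [hKc.closure_interior_eq_closure_of_nonempty_interior hne]
      exact subset_closure hx
    have hcl : closure (interior (j ⁻¹' cv v F)) ⊆ {z | m z ≤ m y} := by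
      apply closure_minimal
      · intro z hz
        exact le_of_lt (hm z hz)
      · exact isClosed_le m.continuous continuous_const
    exact hcl hx'
  have hlin : Function.Injective j.linear := j.linear_injective_iff.2 hinj
  obtain ⟨p, hp⟩ := LinearMap.exists_leftInverse_of_injective j.linear
    (LinearMap.ker_eq_bot.2 hlin)
  have hpj : ∀ x, p (j.linear x) = x := fun x => LinearMap.congr_fun hp x
  have hj : ∀ x, j x = j.linear x + j 0 := by
    intro x
    have h1 := j.map_vadd 0 x
    simpa using h1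
  let l : E8 × ℝ →ₗ[ℝ] ℝ := (m y + m (p (j 0))) • LinearMap.snd ℝ E8 ℝ
    - (m.toLinearMap ∘ₗ p) ∘ₗ LinearMap.fst ℝ E8 ℝ
  have hl : ∀ x, l (j x, 1) = m y - m x := by
    intro x
    have h1 : l (j x, 1) = (m y + m (p (j 0))) * 1 - m (p (j x)) := rfl
    rw [h1, hj x, map_add, map_add, hpj]
    ring
  have hin : ∀ i ∈ F, v i ∈ cv v F := by
    intro i hi
    exact subset_convexHull ℝ _ ⟨i, hi, rfl⟩
  have hlv : ∀ i ∈ F, 0 ≤ l (hom v i) := by
    intro i hi
    obtain ⟨x, hx⟩ := hsub (hin i hi)
    have h1 : hom v i = (j x, 1) := by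
      unfold hom
      rw [hx]
    rw [h1, hl x]
    have h2 := hmK x (by rw [hx]; exact hin i hi)
    linarith
  obtain ⟨G, hGf, hG⟩ := (hF ι (E8 × ℝ) (hom v)).2.2.2.1 F hface l hlv
  refine ⟨G, hGf, ?_, ?_⟩
  · refine Finset.ssubset_iff_subset_ne.2 ⟨fun i hi => ((hG i).1 hi).1, ?_⟩
    intro hGF
    obtain ⟨x0, hx0⟩ := hne
    have h1 : cv v F ⊆ {q : E8 | l (q, 1) = 0} := by
      apply convexHull_min
      · rintro q ⟨i, hi, rfl⟩
        have h2 : i ∈ G := by
          rw [hGF]
          exact hi
        exact ((hG i).1 h2).2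
      · intro a ha b hb s t hs ht hst
        have h3 : ((s • a + t • b, 1) : E8 × ℝ) = s • ((a, 1) : E8 × ℝ) + t • ((b, 1) : E8 × ℝ) := by
          apply Prod.ext
          · rfl
          · show (1 : ℝ) = s • (1 : ℝ) + t • (1 : ℝ)
            rw [smul_eq_mul, smul_eq_mul, mul_one, mul_one, hst]
        show l (s • a + t • b, 1) = 0
        rw [h3, map_add, map_smul, map_smul]
        have ha' : l (a, 1) = 0 := ha
        have hb' : l (b, 1) = 0 := hb
        rw [ha', hb', smul_zero, smul_zero, add_zero]
    have hx0' : x0 ∈ j ⁻¹' cv v F := interior_subset hx0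
    have h4 : l (j x0, 1) = 0 := h1 hx0'
    rw [hl x0] at h4
    have h5 := hm x0 hx0
    linarith
  · apply mem_cv_of_zero v F G l hlv (fun i hi h => (hG i).2 ⟨hi, h⟩) (j y) hy
    rw [hl y, sub_self]

end Pool.Agent.H47.KU
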