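import Pool.Agent.H61.KU.TB

/-!
# Kuiper board, module TOP: the sphere around a missing point
-/

open Topology Set
open Pool.Agent.H59 Pool.Agent.H64.LB Pool.Agent.H61.KU
open scoped unitInterval

namespace Pool.Agent.H47.KU

theorem pf_top (hHM : T_HM) (hP : T_PNT) (hG : T_GAU) : T_TOP := by
  intro ι _ f v hS d j K ξ c α hinj hKc hKv hK0 hj0 hjK hge heq hα i
  classical
  obtain ⟨g0, gc, gf, g1, gle, gi⟩ := hG (Fin (d + 1) → ℝ) K hKc hKv hK0
  have : CompactSpace (PN 2) := (hP 2).1
  have hlin : Function.Injective j.linear := j.linear_injective_iff.2 hinj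
  obtain ⟨p, hp⟩ := LinearMap.exists_leftInverse_of_injective j.linear
    (LinearMap.ker_eq_bot.2 hlin)
  have hpj : ∀ x, p (j.linear x) = x := fun x => LinearMap.congr_fun hp x
  have hj : ∀ x, j x - j 0 = j.linear x := by
    intro x
    have h1 := j.map_vadd 0 x
    have h2 : j x = j.linear x + j 0 := by simpa using h1
    rw [h2, add_sub_cancel_right]
  have hpc : Continuous p := LinearMap.continuous_of_finiteDimensional p
  have hπc : Continuous (fun x : PN 2 => p (f x - j 0)) :=
    hpc.comp (f.continuous.sub continuous_const)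
  have hic : Continuous (fun x : PN 2 => inner ℝ ξ (f x)) :=
    continuous_const.inner f.continuous
  have hrK : ∀ u : Fin (d + 1) → ℝ, u ≠ 0 → rad K u ∈ K := fun u hu =>
    (gle _).2 (le_of_eq ((g1 _).1 (gf u hu)))
  -- a neighbourhood on which the projection does not vanish
  obtain ⟨ε, hε, hO⟩ : ∃ ε : ℝ, 0 < ε ∧ ∀ x, inner ℝ ξ (f x) < c + ε → p (f x - j 0) ≠ 0 := by
    by_cases hZ : ∃ x, p (f x - j 0) = 0
    · have hcl : IsClosed {x : PN 2 | p (f x - j 0) = 0} := isClosed_eq hπc continuous_const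
      obtain ⟨x0, hx0, hmin⟩ := hcl.isCompact.exists_isMinOn hZ hic.continuousOn
      have hgt : c < inner ℝ ξ (f x0) := by
        rcases lt_or_eq_of_le (hge x0) with h | h
        · exact h
        · exfalso
          obtain ⟨y, hy, hyx⟩ := heq x0 h.symm
          have h2 : p (f x0 - j 0) = 0 := hx0
          rw [← hyx, hj y, hpj] at h2
          apply hj0
          refine ⟨x0, ?_⟩
          rw [← hyx, h2]
      refine ⟨inner ℝ ξ (f x0) - c, by linarith, ?_⟩
      intro x hx h0
      have h3 : inner ℝ ξ (f x0) ≤ inner ℝ ξ (f x) := hmin h0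
      linarith
    · refine ⟨1, one_pos, ?_⟩
      intro x _ h0
      exact hZ ⟨x, h0⟩
  let O : Set (PN 2) := {x | inner ℝ ξ (f x) < c + ε}
  let β : C(O, Sph d) := ⟨fun x => ⟨p (f x.1 - j 0), hO x.1 x.2⟩,
    (hπc.comp continuous_subtype_val).subtype_mk _⟩
  have hαO : ∀ u : Sph d, α u ∈ O := by
    intro u
    show inner ℝ ξ (f (α u)) < c + ε
    rw [hα u, hjK _ (hrK u.1 u.2)]
    linarith
  let α' : C(Sph d, O) := ⟨fun u => ⟨α u, hαO u⟩, α.continuous.subtype_mk _⟩
  have hcomp : (inc O).comp α' = α := by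
    ext u
    rfl
  have hβα : ∀ u : Sph d, ((β.comp α') u).1 = rad K u.1 := by
    intro u
    show p (f (α u) - j 0) = rad K u.1
    rw [hα u, hj, hpj]
  have hhom : (β.comp α').Homotopic (ContinuousMap.id (Sph d)) := by
    have hpos : ∀ (t : I) (u : Sph d), 0 < (1 - (t : ℝ)) * (gauge K u.1)⁻¹ + (t : ℝ) := by
      intro t u
      have h1 : 0 < (gauge K u.1)⁻¹ := inv_pos.2 (g0 _ u.2)
      have h2 : 0 ≤ (t : ℝ) := t.2.1
      have h3 : (t : ℝ) ≤ 1 := t.2.2
      rcases lt_or_eq_of_le h3 with h | h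
      · have := mul_pos (sub_pos.2 h) h1
        linarith
      · rw [h]
        norm_num
    refine ⟨{
      toFun := fun q => ⟨((1 - (q.1 : ℝ)) * (gauge K q.2.1)⁻¹ + (q.1 : ℝ)) • q.2.1,
        smul_ne_zero (ne_of_gt (hpos q.1 q.2)) q.2.2⟩
      continuous_toFun := ?_
      map_zero_left := ?_
      map_one_left := ?_ }⟩
    · apply Continuous.subtype_mk
      apply Continuous.fun_smul
      · apply Continuous.add
        · apply Continuous.mul
          · exact continuous_const.sub (continuous_subtype_val.comp continuous_fst)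
          · apply Continuous.inv₀
            · exact gc.comp (continuous_subtype_val.comp continuous_snd)
            · intro q
              exact ne_of_gt (g0 _ q.2.2)
        · exact continuous_subtype_val.comp continuous_fst
      · exact continuous_subtype_val.comp continuous_snd
    · intro u
      apply Subtype.ext
      show ((1 - (((0 : I)) : ℝ)) * (gauge K u.1)⁻¹ + (((0 : I)) : ℝ)) • u.1
        = ((β.comp α') u).1
      rw [hβα u, Set.Icc.coe_zero, sub_zero, one_mul, add_zero]
      rfl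
    · intro u
      apply Subtype.ext
      show ((1 - (((1 : I)) : ℝ)) * (gauge K u.1)⁻¹ + (((1 : I)) : ℝ)) • u.1 = u.1
      rw [Set.Icc.coe_one, sub_self, zero_mul, zero_add, one_smul]
  have hmap := hHM (ZMod 2) (Sph d) (Sph d) _ _ hhom i
  intro z1 z2 h12
  have e1 : HH.map (ZMod 2) i α' z1 = HH.map (ZMod 2) i α' z2 := by
    apply hS.ot ξ (c + ε) i
    rw [← HH.map_comp, ← HH.map_comp]
    exact (congrArg (fun a : C(Sph d, PN 2) => HH.map (ZMod 2) i a z1) hcomp).trans
      (h12.trans (congrArg (fun a : C(Sph d, PN 2) => HH.map (ZMod 2) i a z2) hcomp).symm)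
  have e2 : ∀ z, HH.map (ZMod 2) i β (HH.map (ZMod 2) i α' z) = z := by
    intro z
    rw [← HH.map_comp, hmap, HH.map_id]
  rw [← e2 z1, ← e2 z2, e1]

end Pool.Agent.H47.KU
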